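import Pool.Agent.Q331.Goo.Final

/-!
# The cardinal complexity of the game of googol is at most `n + O(1 / ε ^ 2)`

The instance: `t` is uniform on `{n, ..., n + s}`, and `S` is a uniform `n`-element subset of
`{1, ..., t}`.  A history of length `k ≥ 2` with maximum `m` has at most the weight
`mu = 1 / ((s + 1) (k - 1) (m - 1) ⋯ (m - k + 1))`.  These ideal weights are consistent, and under
them the next element is a record with probability exactly `1 / k` and a record at time `k` is the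
maximum with probability `(k - 1) / (n - 1)`, whatever values were seen.  So the values are of no
use, up to boundary effects of order `1 / (s δ)` after time `δ n`.
-/

open Finset Pool.Agent.Q331.Goo

namespace Pool.Agent.Results.MP_d38296_lc.LinearCardinal

theorem main {ε : ℝ} (hε : 0 < ε) (hε1 : ε < 1) {n : ℕ} (hn : 102 / ε ^ 2 ≤ n) {σ : List ℕ → ℝ}
    (hσ : ∀ l, 0 ≤ σ l ∧ σ l ≤ 1) :
    winProb n (n + ⌊16 / ε ^ 2⌋₊) (inst n ⌊16 / ε ^ 2⌋₊) σ ≤ Real.exp (-1) + ε := by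
  have hε2 : 0 < ε ^ 2 := by positivity
  have hε21 : ε ^ 2 ≤ ε := by nlinarith
  have hn102 : (102 : ℝ) ≤ n := by
    refine le_trans ?_ hn
    rw [le_div_iff₀ hε2]
    nlinarith
  have hn0 : (0 : ℝ) < n := by linarith
  have hnε : 102 ≤ n * ε ^ 2 := by
    rwa [div_le_iff₀ hε2] at hn
  have hn2 : 2 ≤ n := by
    have : (2 : ℝ) ≤ n := by linarith
    exact_mod_cast this
  set s : ℕ := ⌊16 / ε ^ 2⌋₊ with hs
  have hs1 : 16 / ε ^ 2 < (s : ℝ) + 1 := Nat.lt_floor_add_one _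
  have hs0 : (0 : ℝ) < (s : ℝ) + 1 := by positivity
  set c : ℕ := ⌈ε / 4 * n⌉₊ with hc
  have hc1 : ε / 4 * n ≤ c := Nat.le_ceil _
  have hc2 : (c : ℝ) < ε / 4 * n + 1 := Nat.ceil_lt_add_one (by positivity)
  have hc0 : 0 < c := Nat.ceil_pos.2 (by positivity)
  have hk : 2 ≤ c + 1 := by omega
  have hkn : c + 1 ≤ n := by
    have : (c : ℝ) + 1 ≤ n := by nlinarith
    exact_mod_cast this
  refine (winProb_le hσ hn2 hk hkn).trans ?_
  push_cast
  have e : (c : ℝ) + 1 - 1 = c := by ring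
  rw [e]
  have hcr : (0 : ℝ) < c := by exact_mod_cast hc0
  have hδn : 0 < ε / 4 * n := by positivity
  have hn1 : (0 : ℝ) < (n : ℝ) - 1 := by linarith
  -- `1 / ((s + 1) δ) ≤ ε / 4`
  have hsd : 1 / (((s : ℝ) + 1) * (ε / 4)) ≤ ε / 4 := by
    rw [div_le_iff₀ (by positivity)]
    rw [div_lt_iff₀ hε2] at hs1
    nlinarith
  have b3 : (n : ℝ) / (((s : ℝ) + 1) * c) ≤ ε / 4 := by
    calc (n : ℝ) / (((s : ℝ) + 1) * c) ≤ n / (((s : ℝ) + 1) * (ε / 4 * n)) := by gcongr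
      _ = 1 / (((s : ℝ) + 1) * (ε / 4)) := by field_simp
      _ ≤ _ := hsd
  have b4 : 1 / (ε / 4 * n) ≤ ε / 25 := by
    rw [div_le_iff₀ hδn]
    nlinarith
  have b2 : ((n : ℝ) + s) / (((s : ℝ) + 1) * c) ≤ ε / 4 + ε / 25 := by
    calc ((n : ℝ) + s) / (((s : ℝ) + 1) * c) = n / (((s : ℝ) + 1) * c) + s / (((s : ℝ) + 1) * c) := by
          rw [add_div]
      _ ≤ ε / 4 + 1 / (ε / 4 * n) := by
          refine add_le_add b3 ?_
          calc (s : ℝ) / (((s : ℝ) + 1) * c) = s / (s + 1) * (1 / c) := by field_simp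
            _ ≤ 1 * (1 / (ε / 4 * n)) := by
              gcongr
              rw [div_le_one hs0]; linarith
            _ = _ := one_mul _
      _ ≤ _ := by linarith
  have b5 : 1 / ((n : ℝ) - 1) ≤ ε / 101 := by
    rw [div_le_iff₀ hn1]
    nlinarith
  have b1 : ((c : ℝ) + 1) / ((n : ℝ) - 1) ≤ ε / 4 + 3 * (ε / 101) := by
    calc ((c : ℝ) + 1) / ((n : ℝ) - 1) ≤ (ε / 4 * n + 2) / ((n : ℝ) - 1) :=
          div_le_div_of_nonneg_right (by linarith) hn1.le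
      _ = ε / 4 + (ε / 4 + 2) * (1 / ((n : ℝ) - 1)) := by field_simp; ring
      _ ≤ ε / 4 + 3 * (ε / 101) := by
          gcongr; linarith
  have hexp : Real.exp (-1) ≤ 1 / 2 := by
    rw [Real.exp_neg, ← one_div]
    apply one_div_le_one_div_of_le (by norm_num)
    have := Real.add_one_le_exp (1 : ℝ)
    linarith
  have hexp0 : 0 < Real.exp (-1) := Real.exp_pos _
  set X : ℝ := ((n : ℝ) + s) / (((s : ℝ) + 1) * c) with hX
  have hX0 : 0 ≤ X := by positivity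
  have hX1 : X ≤ 1 := by linarith
  have b6 : (Real.exp (-1) + 2 / ((n : ℝ) - 1)) * (1 + X) ≤
      Real.exp (-1) + 1 / 2 * (ε / 4 + ε / 25) + 4 * (ε / 101) := by
    have e2 : 2 / ((n : ℝ) - 1) = 2 * (1 / ((n : ℝ) - 1)) := by ring
    have e3 : 0 < 1 / ((n : ℝ) - 1) := by positivity
    have t1 : Real.exp (-1) * X ≤ 1 / 2 * (ε / 4 + ε / 25) := by gcongr
    have t2 : 2 * (1 / ((n : ℝ) - 1)) * (1 + X) ≤ 2 * (ε / 101) * 2 := by
      gcongr; linarith
    rw [e2]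
    linarith
  linarith

/-- **The cardinal complexity of the game of googol is at most `n + 16 / ε ^ 2`.**  (1) For all
`ε ∈ (0, 1)` and all `n ≥ 102 / ε ^ 2` there is a probability distribution on the `n`-element
subsets of `{1, ..., n + ⌊16 / ε ^ 2⌋}` under which no online cardinal algorithm wins with
probability more than `1 / e + ε`.  (2) Hence the answer to Q1 is yes, with the polynomial
`p(x, y) = x + 16 y ^ 2`. -/
theorem result :
    (∀ ε : ℝ, 0 < ε → ε < 1 → ∀ n : ℕ, 102 / ε ^ 2 ≤ n →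
      ∃ D : Finset ℕ → ℝ, IsInstance n (n + ⌊16 / ε ^ 2⌋₊) D ∧
        ∀ σ : List ℕ → ℝ, (∀ l, 0 ≤ σ l ∧ σ l ≤ 1) →
          winProb n (n + ⌊16 / ε ^ 2⌋₊) D σ ≤ Real.exp (-1) + ε) ∧
    ∃ p : MvPolynomial (Fin 2) ℝ, ∀ ε : ℝ, 0 < ε → ε < 1 → ∃ n₀ : ℕ, ∀ n ≥ n₀, ∃ N : ℕ, n ≤ N ∧
      (N : ℝ) ≤ MvPolynomial.eval ![(n : ℝ), 1 / ε] p ∧
      ∃ D : Finset ℕ → ℝ, IsInstance n N D ∧ ∀ σ : List ℕ → ℝ, (∀ l, 0 ≤ σ l ∧ σ l ≤ 1) →
        winProb n N D σ ≤ Real.exp (-1) + ε := by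
  refine ⟨fun ε h0 h1 n hn => ⟨_, inst_isInstance n _, fun σ hσ => main h0 h1 hn hσ⟩, ?_⟩
  refine ⟨MvPolynomial.X 0 + MvPolynomial.C 16 * MvPolynomial.X 1 ^ 2, fun ε h0 h1 => ?_⟩
  refine ⟨⌈102 / ε ^ 2⌉₊, fun n hn => ⟨n + ⌊16 / ε ^ 2⌋₊, by omega, ?_, _, inst_isInstance n _,
    fun σ hσ => main h0 h1 ?_ hσ⟩⟩
  · have := Nat.floor_le (show 0 ≤ 16 / ε ^ 2 by positivity)
    simp only [map_add, map_mul, map_pow, MvPolynomial.eval_X, MvPolynomial.eval_C]
    simp only [Matrix.cons_val_zero, Matrix.cons_val_one, one_div, inv_pow]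
    push_cast
    rw [← div_eq_mul_inv]
    linarith
  · exact (Nat.le_ceil _).trans (by exact_mod_cast hn)

end Pool.Agent.Results.MP_d38296_lc.LinearCardinal
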